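import Pool.Agent.Lib.TATE.FP.Liou2

set_option autoImplicit false

open Filter Topology Bornology Metric

noncomputable section

namespace TATE.FP

theorem tendsto_normSq : Tendsto (fun z : ℂ => Complex.normSq z) (cobounded ℂ) atTop := by
  have h : Tendsto (fun z : ℂ => ‖z‖ ^ 2) (cobounded ℂ) atTop :=
    (tendsto_pow_atTop (by norm_num)).comp tendsto_norm_cobounded_atTop
  refine h.congr fun z => ?_
  rw [Complex.normSq_eq_norm_sq]

theorem log_sub (a : ℂ) : Tendsto
    (fun z : ℂ => Real.log (Complex.normSq (z - a)) - Real.log (Complex.normSq z))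
    (cobounded ℂ) (𝓝 0) := by
  have h1 : Tendsto (fun z : ℂ => 1 - a * z⁻¹) (cobounded ℂ) (𝓝 1) := by
    have := (tendsto_inv₀_cobounded (α := ℂ)).const_mul a
    simpa using this.const_sub 1
  have h2 : Tendsto (fun z : ℂ => Real.log (Complex.normSq (1 - a * z⁻¹))) (cobounded ℂ)
      (𝓝 0) := by
    have h3 : Tendsto (fun z : ℂ => Complex.normSq (1 - a * z⁻¹)) (cobounded ℂ) (𝓝 1) := by
      have := (Complex.continuous_normSq.tendsto 1).comp h1
      simpa [Function.comp_def] using this
    have := (Real.continuousAt_log one_ne_zero).tendsto.comp h3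
    simpa [Function.comp_def] using this
  refine h2.congr' ?_
  have e1 : ∀ᶠ z in cobounded ℂ, z ≠ 0 := by
    simpa using (eventually_ne_cobounded (0 : ℂ))
  filter_upwards [eventually_ne_cobounded (0 : ℂ), eventually_ne_cobounded a] with z hz hza
  have : z - a = (1 - a * z⁻¹) * z := by field_simp
  rw [this, Complex.normSq_mul, Real.log_mul]
  · ring
  · intro h
    rw [Complex.normSq_eq_zero] at h
    apply hza
    have : z - a = 0 := by rw [this, h, zero_mul]
    exact sub_eq_zero.mp this
  · simpa using hz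

theorem log_add : Tendsto
    (fun z : ℂ => Real.log (Complex.normSq z + 1) - Real.log (Complex.normSq z))
    (cobounded ℂ) (𝓝 0) := by
  have h1 : Tendsto (fun z : ℂ => 1 + (Complex.normSq z)⁻¹) (cobounded ℂ) (𝓝 1) := by
    have := tendsto_inv_atTop_zero.comp tendsto_normSq
    simpa using this.const_add 1
  have h2 := (Real.continuousAt_log one_ne_zero).tendsto.comp h1
  rw [Real.log_one] at h2
  refine h2.congr' ?_
  filter_upwards [eventually_ne_cobounded (0 : ℂ)] with z hz
  have hp : 0 < Complex.normSq z := Complex.normSq_pos.mpr hz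
  simp only [Function.comp]
  rw [← Real.log_div (by positivity) hp.ne']
  congr 1
  field_simp

/-- `≤` at the value of a comparison: **Liouville** -/
theorem liouville_le {F : Set ℂ} (hF : F.Finite) {v l : ℂ → ℝ}
    (hc : ∀ z ∉ F, ContinuousAt v z) (hl : ∀ z ∉ F, Lap v z (l z) ∧ 0 ≤ l z)
    (hs : ∀ s ∈ F, ∀ ε > 0, ∀ᶠ z in 𝓝[≠] s, v z ≤ -(ε * Real.log (Complex.normSq (z - s))))
    (hi : ∀ ε > 0, ∀ᶠ z in cobounded ℂ, v z ≤ ε * Real.log (Complex.normSq z))
    {z z₁ : ℂ} (hz : z ∉ F) (hz₁ : z₁ ∉ F) : v z ≤ v z₁ := by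
  classical
  by_cases hzz : z = z₁
  · rw [hzz]
  obtain ⟨S, rfl⟩ := hF.exists_finset_coe
  have hF' : (S : Set ℂ).Finite := S.finite_toSet
  set N : ℝ := (S.card : ℝ) with hN
  set g : ℂ → ℝ := fun z => (∑ s ∈ S, Real.log (Complex.normSq (z - s) + 0)) +
    Real.log (Complex.normSq (z - 0) + 1) + (-(N + 2)) * Real.log (Complex.normSq (z - z₁) + 0)
    with hg
  have hSne : ∀ z ∉ (S : Set ℂ), ∀ s ∈ S, 0 < Complex.normSq (z - s) + 0 := by
    intro z hz s hs
    rw [add_zero, Complex.normSq_pos, sub_ne_zero]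
    rintro rfl
    exact hz hs
  have hgl : ∀ z ∉ (S : Set ℂ), z ≠ z₁ → Lap g z (4 * 1 / (Complex.normSq (z - 0) + 1) ^ 2) := by
    intro z hz hzne
    have h1 := Lap.sum S (v := fun s z => Real.log (Complex.normSq (z - s) + 0)) (z := z)
      fun s hs => lap_log s 0 z (hSne z hz s hs)
    have h2 := lap_log 0 1 z (by have := Complex.normSq_nonneg (z - 0); linarith)
    have h3 := (lap_log z₁ 0 z (by
      rw [add_zero, Complex.normSq_pos, sub_ne_zero]; exact hzne)).smul (-(N + 2))
    have h4 := (h1.add h2).add h3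
    have e : (∑ s ∈ S, 4 * 0 / (Complex.normSq (z - s) + 0) ^ 2) +
        4 * 1 / (Complex.normSq (z - 0) + 1) ^ 2 +
        (-(N + 2)) * (4 * 0 / (Complex.normSq (z - z₁) + 0) ^ 2) =
        4 * 1 / (Complex.normSq (z - 0) + 1) ^ 2 := by simp
    rw [← e]
    exact h4
  have hga : ∀ a z : ℂ, z ≠ a → ContinuousAt (fun z : ℂ => Real.log (Complex.normSq (z - a) + 0))
      z := by
    intro a z hne
    apply ContinuousAt.log
    · exact (Complex.continuous_normSq.comp (continuous_id.sub continuous_const)).continuousAt.add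
        continuousAt_const
    · rw [add_zero]
      simpa [sub_eq_zero] using hne
  have hg1 : Continuous fun z : ℂ => Real.log (Complex.normSq (z - 0) + 1) := by
    apply Continuous.log
    · exact (Complex.continuous_normSq.comp (continuous_id.sub continuous_const)).add
        continuous_const
    · intro z
      have := Complex.normSq_nonneg (z - 0)
      intro h
      linarith
  have hgc : ∀ z ∉ (S : Set ℂ), z ≠ z₁ → ContinuousAt g z := by
    intro z hz hzne
    refine ContinuousAt.add (ContinuousAt.add ?_ hg1.continuousAt)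
      (continuousAt_const.mul (hga z₁ z hzne))
    refine tendsto_finsetSum _ fun s hs => hga s z ?_
    rintro rfl
    exact hz hs
  -- behaviour at the punctures
  have hgs : ∀ ε > 0, ∀ s ∈ (S : Set ℂ), Tendsto (fun z => v z + ε * g z) (𝓝[≠] s) atBot := by
    intro ε hε s hsS
    have hsS' : s ∈ S := hsS
    have hsz : s ≠ z₁ := by
      rintro rfl
      exact hz₁ hsS
    have h1 : Tendsto (fun z : ℂ => Complex.normSq (z - s)) (𝓝[≠] s) (𝓝[>] 0) := by
      refine tendsto_nhdsWithin_iff.mpr ⟨?_, ?_⟩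
      · have : Continuous fun z : ℂ => Complex.normSq (z - s) :=
          Complex.continuous_normSq.comp (continuous_id.sub continuous_const)
        have h2 := this.tendsto s
        simp only [sub_self, map_zero] at h2
        exact h2.mono_left nhdsWithin_le_nhds
      · filter_upwards [self_mem_nhdsWithin] with z hz
        exact Complex.normSq_pos.mpr (sub_ne_zero.mpr hz)
    have h2 : Tendsto (fun z : ℂ => Real.log (Complex.normSq (z - s))) (𝓝[≠] s) atBot :=
      Real.tendsto_log_nhdsGT_zero.comp h1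
    -- the rest is bounded
    set k : ℂ → ℝ := fun z => (∑ s' ∈ S.erase s, Real.log (Complex.normSq (z - s') + 0)) +
      Real.log (Complex.normSq (z - 0) + 1) + (-(N + 2)) * Real.log (Complex.normSq (z - z₁) + 0)
      with hk
    have hkc : ContinuousAt k s := by
      refine ContinuousAt.add (ContinuousAt.add ?_ hg1.continuousAt)
        (continuousAt_const.mul (hga z₁ s hsz))
      refine tendsto_finsetSum _ fun s' hs' => hga s' s ?_
      exact (Finset.ne_of_mem_erase hs').symm
    have hgk : ∀ z, g z = Real.log (Complex.normSq (z - s)) + k z := by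
      intro z
      simp only [hg, hk, add_zero]
      rw [← Finset.add_sum_erase S _ hsS']
      ring
    have h3 : Tendsto (fun z => (ε / 2) * Real.log (Complex.normSq (z - s)) + ε * k z) (𝓝[≠] s)
        atBot := by
      refine Tendsto.atBot_add (C := ε * k s) ?_ ?_
      · exact h2.const_mul_atBot (by positivity)
      · exact (hkc.tendsto.mono_left nhdsWithin_le_nhds).const_mul ε
    refine tendsto_atBot_mono' _ ?_ h3
    filter_upwards [hs s hsS (ε / 2) (by positivity)] with z hz
    rw [hgk z]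
    linarith
  have hgi : ∀ ε > 0, Tendsto (fun z => v z + ε * g z) (cobounded ℂ) atBot := by
    intro ε hε
    have h1 : Tendsto (fun z : ℂ => Real.log (Complex.normSq z)) (cobounded ℂ) atTop :=
      Real.tendsto_log_atTop.comp tendsto_normSq
    set k : ℂ → ℝ := fun z => (∑ s ∈ S, (Real.log (Complex.normSq (z - s)) -
      Real.log (Complex.normSq z))) + (Real.log (Complex.normSq z + 1) -
      Real.log (Complex.normSq z)) + (-(N + 2)) * (Real.log (Complex.normSq (z - z₁)) -
      Real.log (Complex.normSq z)) with hk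
    have hk0 : Tendsto k (cobounded ℂ) (𝓝 0) := by
      have := ((tendsto_finsetSum S fun s _ => log_sub s).add log_add).add
        ((log_sub z₁).const_mul (-(N + 2)))
      have e : (0 : ℝ) = (∑ _s ∈ S, (0 : ℝ)) + 0 + (-(N + 2)) * 0 := by simp
      rw [e]
      exact this
    have hgk : ∀ z, g z = -Real.log (Complex.normSq z) + k z := by
      intro z
      simp only [hg, hk, add_zero, sub_zero, Finset.sum_sub_distrib, Finset.sum_const,
        nsmul_eq_mul, ← hN]
      ring
    have h3 : Tendsto (fun z => -(ε / 2) * Real.log (Complex.normSq z) + ε * k z) (cobounded ℂ)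
        atBot := by
      refine Tendsto.atBot_add (C := ε * 0) ?_ (hk0.const_mul ε)
      exact h1.const_mul_atTop_of_neg (by linarith)
    refine tendsto_atBot_mono' _ ?_ h3
    filter_upwards [hi (ε / 2) (by positivity)] with z hz
    rw [hgk z]
    linarith
  -- conclusion
  refine le_of_forall_pos_le_add fun η hη => ?_
  have hnb : ∀ᶠ y in 𝓝 z₁, v y < v z₁ + η / 2 :=
    (hc z₁ hz₁).eventually_mem (Iio_mem_nhds (by linarith))
  have hnb2 : ∀ᶠ y in 𝓝 z₁, y ∉ (S : Set ℂ) := hF'.isClosed.isOpen_compl.mem_nhds hz₁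
  obtain ⟨ρ, hρ, hball⟩ := Metric.eventually_nhds_iff.mp (hnb.and hnb2)
  obtain ⟨r, hr0, hrρ, hrz⟩ : ∃ r, 0 < r ∧ r < ρ ∧ r ≤ dist z z₁ := by
    have hd : 0 < dist z z₁ := dist_pos.mpr hzz
    exact ⟨min (ρ / 2) (dist z z₁), lt_min (by linarith) hd,
      lt_of_le_of_lt (min_le_left _ _) (by linarith), min_le_right _ _⟩
  -- g is bounded on the circle
  have hcirc : IsCompact (sphere z₁ r) := isCompact_sphere _ _
  have hgcirc : ContinuousOn g (sphere z₁ r) := by
    intro y hy
    have hy' : dist y z₁ = r := hy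
    refine (hgc y ?_ ?_).continuousWithinAt
    · exact (hball (by rw [hy']; exact hrρ)).2
    · rintro rfl
      rw [dist_self] at hy'
      linarith
  obtain ⟨C, hC⟩ := hcirc.exists_bound_of_continuousOn hgcirc
  have hlim : ∀ ε > 0, v z + ε * g z ≤ v z₁ + η / 2 + ε * C := by
    intro ε hε
    obtain ⟨z', h1, h2, h3⟩ := maxp (w := fun z => v z + ε * g z)
      (l := fun z => l z + ε * (4 * 1 / (Complex.normSq (z - 0) + 1) ^ 2)) hF' hr0
      (fun y hy hyne => (hc y hy).add (continuousAt_const.mul (hgc y hy hyne)))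
      (fun y hy hyne => ⟨(hl y hy).1.add ((hgl y hy hyne).smul ε), by
        have := (hl y hy).2
        have h5 : 0 < ε * (4 * 1 / (Complex.normSq (y - 0) + 1) ^ 2) := by
          have : 0 ≤ Complex.normSq (y - 0) := Complex.normSq_nonneg _
          positivity
        linarith⟩)
      (hgs ε hε) (hgi ε hε) hz hrz
    have h4 := (hball (show dist z' z₁ < ρ by rw [h1]; exact hrρ)).1
    have h5 : g z' ≤ C := (le_abs_self _).trans (hC z' h1)
    have h6 : ε * g z' ≤ ε * C := mul_le_mul_of_nonneg_left h5 hε.le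
    linarith
  have hfin : v z ≤ v z₁ + η / 2 := by
    have ht : Tendsto (fun ε : ℝ => v z₁ + η / 2 + ε * C - ε * g z) (𝓝[>] 0)
        (𝓝 (v z₁ + η / 2)) := by
      have : Continuous fun ε : ℝ => v z₁ + η / 2 + ε * C - ε * g z := by fun_prop
      have h2 := this.tendsto 0
      simp only [zero_mul, add_zero, sub_zero] at h2
      exact h2.mono_left nhdsWithin_le_nhds
    refine ge_of_tendsto ht ?_
    filter_upwards [self_mem_nhdsWithin] with ε hε
    have := hlim ε hε
    linarith
  linarith

/-- **Liouville**: a subharmonic function on `ℂ \ F` of growth `o(log)` at all punctures and at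
infinity is constant, so its Laplacian is `0`. -/
theorem liouville {F : Set ℂ} (hF : F.Finite) {v l : ℂ → ℝ}
    (hc : ∀ z ∉ F, ContinuousAt v z) (hl : ∀ z ∉ F, Lap v z (l z) ∧ 0 ≤ l z)
    (hs : ∀ s ∈ F, ∀ ε > 0, ∀ᶠ z in 𝓝[≠] s, v z ≤ -(ε * Real.log (Complex.normSq (z - s))))
    (hi : ∀ ε > 0, ∀ᶠ z in cobounded ℂ, v z ≤ ε * Real.log (Complex.normSq z)) :
    (∀ z ∉ F, ∀ z₁ ∉ F, v z = v z₁) ∧ ∀ z ∉ F, l z = 0 := by
  have h1 : ∀ z ∉ F, ∀ z₁ ∉ F, v z = v z₁ := fun z hz z₁ hz₁ =>
    le_antisymm (liouville_le hF hc hl hs hi hz hz₁) (liouville_le hF hc hl hs hi hz₁ hz)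
  refine ⟨h1, fun z hz => le_antisymm ((hl z hz).1.le ?_) (hl z hz).2⟩
  filter_upwards [hF.isClosed.isOpen_compl.mem_nhds hz] with y hy
  exact (h1 y hy z hz).le

end TATE.FP
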