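import Mathlib

/-! # TATE/FP: Liouville's theorem for subharmonic functions on `ℂ` minus a finite set -/

set_option autoImplicit false

open Filter Topology Bornology

noncomputable section

namespace TATE.FP

/-- `v` has second derivatives in the directions `1` and `i` at `z`, with sum `l` -/
def Lap (v : ℂ → ℝ) (z : ℂ) (l : ℝ) : Prop :=
  ∃ (p q : ℝ → ℝ) (a b : ℝ),
    (∀ᶠ t : ℝ in 𝓝 0, HasDerivAt (fun t : ℝ => v (z + t)) (p t) t) ∧ HasDerivAt p a 0 ∧
    (∀ᶠ t : ℝ in 𝓝 0, HasDerivAt (fun t : ℝ => v (z + t * Complex.I)) (q t) t) ∧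
    HasDerivAt q b 0 ∧ a + b = l

theorem Lap.add {v w : ℂ → ℝ} {z : ℂ} {l m : ℝ} (h : Lap v z l) (h' : Lap w z m) :
    Lap (fun z => v z + w z) z (l + m) := by
  obtain ⟨p, q, a, b, h1, h2, h3, h4, h5⟩ := h
  obtain ⟨p', q', a', b', h1', h2', h3', h4', h5'⟩ := h'
  refine ⟨fun t => p t + p' t, fun t => q t + q' t, a + a', b + b', ?_, h2.add h2', ?_,
    h4.add h4', by linarith⟩
  · filter_upwards [h1, h1'] with t ht ht' using ht.add ht'
  · filter_upwards [h3, h3'] with t ht ht' using ht.add ht'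

theorem Lap.smul {v : ℂ → ℝ} {z : ℂ} {l : ℝ} (c : ℝ) (h : Lap v z l) :
    Lap (fun z => c * v z) z (c * l) := by
  obtain ⟨p, q, a, b, h1, h2, h3, h4, h5⟩ := h
  refine ⟨fun t => c * p t, fun t => c * q t, c * a, c * b, ?_, h2.const_mul c, ?_,
    h4.const_mul c, by rw [← h5]; ring⟩
  · filter_upwards [h1] with t ht using ht.const_mul c
  · filter_upwards [h3] with t ht using ht.const_mul c

theorem Lap.sum {ι : Type*} (s : Finset ι) {v : ι → ℂ → ℝ} {z : ℂ} {l : ι → ℝ}
    (h : ∀ i ∈ s, Lap (v i) z (l i)) : Lap (fun z => ∑ i ∈ s, v i z) z (∑ i ∈ s, l i) := by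
  classical
  induction s using Finset.induction_on with
  | empty =>
    refine ⟨fun _ => 0, fun _ => 0, 0, 0, ?_, hasDerivAt_const _ _, ?_, hasDerivAt_const _ _,
      by simp⟩
    · exact Eventually.of_forall fun t => by simpa using hasDerivAt_const t (0 : ℝ)
    · exact Eventually.of_forall fun t => by simpa using hasDerivAt_const t (0 : ℝ)
  | insert i s hi ih =>
    have h1 := (h i (Finset.mem_insert_self i s)).add
      (ih fun j hj => h j (Finset.mem_insert_of_mem hj))
    simpa [Finset.sum_insert hi] using h1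

/-- one variable: the second derivative at a local maximum -/
theorem snd_le {f p : ℝ → ℝ} {a : ℝ} (h1 : ∀ᶠ t in 𝓝 (0 : ℝ), HasDerivAt f (p t) t)
    (h2 : HasDerivAt p a 0) (hm : IsLocalMax f 0) : a ≤ 0 := by
  by_contra ha
  push Not at ha
  have e : deriv f =ᶠ[𝓝 0] p := by
    filter_upwards [h1] with t ht using ht.deriv
  have e2 : deriv (deriv f) 0 = a := by
    rw [e.deriv_eq]; exact h2.deriv
  have hd : deriv f 0 = 0 := hm.deriv_eq_zero
  have hc : ContinuousAt f 0 := h1.self_of_nhds.continuousAt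
  have hmin : IsLocalMin f 0 := isLocalMin_of_deriv_deriv_pos (by rw [e2]; exact ha) hd hc
  have hconst : f =ᶠ[𝓝 0] fun _ => f 0 := by
    filter_upwards [hm, hmin] with t h3 h4 using le_antisymm h3 h4
  have hp0 : deriv f =ᶠ[𝓝 0] fun _ => 0 := by
    have := hconst.deriv
    filter_upwards [this] with t ht
    rw [ht]; simp
  have e3 : deriv (deriv f) 0 = 0 := by
    rw [hp0.deriv_eq]; simp
  rw [e2] at e3
  exact ha.ne' e3

/-- the maximum principle, local form -/
theorem Lap.le {v : ℂ → ℝ} {z : ℂ} {l : ℝ} (h : Lap v z l) (hm : IsLocalMax v z) : l ≤ 0 := by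
  obtain ⟨p, q, a, b, h1, h2, h3, h4, h5⟩ := h
  have c1 : Tendsto (fun t : ℝ => z + (t : ℂ)) (𝓝 0) (𝓝 z) := by
    have : Continuous fun t : ℝ => z + (t : ℂ) := by fun_prop
    simpa using this.tendsto 0
  have c2 : Tendsto (fun t : ℝ => z + (t : ℂ) * Complex.I) (𝓝 0) (𝓝 z) := by
    have : Continuous fun t : ℝ => z + (t : ℂ) * Complex.I := by fun_prop
    simpa using this.tendsto 0
  have m1 : IsLocalMax (fun t : ℝ => v (z + t)) 0 := by
    have := c1.eventually hm
    simpa [IsLocalMax, IsMaxFilter] using this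
  have m2 : IsLocalMax (fun t : ℝ => v (z + t * Complex.I)) 0 := by
    have := c2.eventually hm
    simpa [IsLocalMax, IsMaxFilter] using this
  have := snd_le h1 h2 m1
  have := snd_le h3 h4 m2
  linarith

end TATE.FP
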