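import Pool.Agent.Lib.TATE.FP.Liou

set_option autoImplicit false

open Filter Topology Bornology Metric

noncomputable section

namespace TATE.FP

/-- the maximum principle outside a disc -/
theorem maxp {F : Set ℂ} (hF : F.Finite) {w l : ℂ → ℝ} {z₁ : ℂ} {r : ℝ} (hr : 0 < r)
    (hc : ∀ z ∉ F, z ≠ z₁ → ContinuousAt w z)
    (hl : ∀ z ∉ F, z ≠ z₁ → Lap w z (l z) ∧ 0 < l z)
    (hs : ∀ s ∈ F, Tendsto w (𝓝[≠] s) atBot) (hi : Tendsto w (cobounded ℂ) atBot)
    {z : ℂ} (hz : z ∉ F) (hzr : r ≤ dist z z₁) : ∃ z', dist z' z₁ = r ∧ z' ∉ F ∧ w z ≤ w z' := by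
  set K : Set ℂ := {y | y ∉ F ∧ r ≤ dist y z₁ ∧ w z ≤ w y} with hK
  have hne : ∀ y, r ≤ dist y z₁ → y ≠ z₁ := by
    rintro y hy rfl
    rw [dist_self] at hy; linarith
  have hFc : IsClosed F := hF.isClosed
  have hcl : IsClosed K := by
    rw [← isOpen_compl_iff, isOpen_iff_mem_nhds]
    intro y hy
    by_cases h1 : y ∈ F
    · have h2 : ∀ᶠ x in 𝓝[≠] y, w x < w z := (hs y h1).eventually (eventually_lt_atBot _)
      rw [eventually_nhdsWithin_iff] at h2
      filter_upwards [h2] with x hx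
      intro hxK
      by_cases hxy : x = y
      · exact hxK.1 (hxy ▸ h1)
      · exact absurd hxK.2.2 (not_le.mpr (hx hxy))
    · by_cases h2 : dist y z₁ < r
      · have : ∀ᶠ x in 𝓝 y, dist x z₁ < r :=
          (continuous_id.dist continuous_const).continuousAt.eventually_mem (Iio_mem_nhds h2)
        filter_upwards [this] with x hx hxK
        exact absurd hxK.2.1 (not_le.mpr hx)
      · push Not at h2
        have h3 : w y < w z := by
          by_contra h
          push Not at h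
          exact hy ⟨h1, h2, h⟩
        have : ∀ᶠ x in 𝓝 y, w x < w z := (hc y h1 (hne y h2)).eventually_mem (Iio_mem_nhds h3)
        filter_upwards [this] with x hx hxK
        exact absurd hxK.2.2 (not_le.mpr hx)
  have hbd : Bornology.IsBounded K := by
    have h2 : ∀ᶠ x in cobounded ℂ, w x < w z := hi.eventually (eventually_lt_atBot _)
    have h3 : Kᶜ ∈ cobounded ℂ := by
      filter_upwards [h2] with x hx hxK
      exact absurd hxK.2.2 (not_le.mpr hx)
    exact Bornology.isCobounded_compl_iff.mp (Bornology.isCobounded_def.mpr h3)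
  have hKc : IsCompact K := Metric.isCompact_of_isClosed_isBounded hcl hbd
  have hco : ContinuousOn w K := fun y hy => (hc y hy.1 (hne y hy.2.1)).continuousWithinAt
  obtain ⟨y, hy, hmax⟩ := hKc.exists_isMaxOn ⟨z, hz, hzr, le_refl _⟩ hco
  refine ⟨y, ?_, hy.1, hy.2.2⟩
  by_contra hyr
  have hyr' : r < dist y z₁ := lt_of_le_of_ne hy.2.1 (Ne.symm hyr)
  have e1 : ∀ᶠ x in 𝓝 y, r < dist x z₁ :=
    (continuous_id.dist continuous_const).continuousAt.eventually_mem (Ioi_mem_nhds hyr')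
  have e2 : ∀ᶠ x in 𝓝 y, x ∉ F := hFc.isOpen_compl.mem_nhds hy.1
  have hloc : IsLocalMax w y := by
    filter_upwards [e1, e2] with x h1 h2
    by_cases h3 : w z ≤ w x
    · exact hmax ⟨h2, h1.le, h3⟩
    · push Not at h3
      exact h3.le.trans hy.2.2
  obtain ⟨h1, h2⟩ := hl y hy.1 (hne y hy.2.1)
  exact absurd (h1.le hloc) (not_le.mpr h2)

theorem log_aux (x y e : ℝ) (h : 0 < x ^ 2 + y ^ 2 + e) :
    (∀ᶠ t : ℝ in 𝓝 0, HasDerivAt (fun t : ℝ => Real.log ((x + t) ^ 2 + y ^ 2 + e))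
      (2 * (x + t) / ((x + t) ^ 2 + y ^ 2 + e)) t) ∧
    HasDerivAt (fun t : ℝ => 2 * (x + t) / ((x + t) ^ 2 + y ^ 2 + e))
      (2 / (x ^ 2 + y ^ 2 + e) - 4 * x ^ 2 / (x ^ 2 + y ^ 2 + e) ^ 2) 0 := by
  have hd : ∀ t : ℝ, HasDerivAt (fun t : ℝ => (x + t) ^ 2 + y ^ 2 + e) (2 * (x + t)) t := by
    intro t
    have h1 : HasDerivAt (fun t : ℝ => x + t) 1 t := (hasDerivAt_id t).const_add x
    have h2 := ((h1.pow 2).add_const (y ^ 2)).add_const e
    simpa using h2
  constructor
  · have hc : Continuous fun t : ℝ => (x + t) ^ 2 + y ^ 2 + e := by fun_prop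
    have : ∀ᶠ t : ℝ in 𝓝 0, 0 < (x + t) ^ 2 + y ^ 2 + e := by
      apply hc.continuousAt.eventually_mem (s := Set.Ioi 0)
      exact Ioi_mem_nhds (by simpa using h)
    filter_upwards [this] with t ht
    exact (hd t).log ht.ne'
  · have h1 : HasDerivAt (fun t : ℝ => 2 * (x + t)) 2 0 := by
      simpa using ((hasDerivAt_id (0 : ℝ)).const_add x).const_mul 2
    have h2 := h1.div (hd 0) (by simpa using h.ne')
    refine h2.congr_deriv ?_
    simp only [add_zero]
    field_simp
    ring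

theorem lap_log (a : ℂ) (e : ℝ) (z : ℂ) (h : 0 < Complex.normSq (z - a) + e) :
    Lap (fun z => Real.log (Complex.normSq (z - a) + e)) z
      (4 * e / (Complex.normSq (z - a) + e) ^ 2) := by
  have hn : Complex.normSq (z - a) = (z - a).re ^ 2 + (z - a).im ^ 2 := by
    rw [Complex.normSq_apply]; ring
  have hx : ∀ t : ℝ, Complex.normSq (z + t - a) + e = ((z - a).re + t) ^ 2 + (z - a).im ^ 2 + e := by
    intro t
    rw [Complex.normSq_apply]; simp; ring
  have hy : ∀ t : ℝ, Complex.normSq (z + t * Complex.I - a) + e =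
      ((z - a).im + t) ^ 2 + (z - a).re ^ 2 + e := by
    intro t
    rw [Complex.normSq_apply]; simp; ring
  obtain ⟨h1, h2⟩ := log_aux (z - a).re (z - a).im e (by rw [← hn]; exact h)
  obtain ⟨h3, h4⟩ := log_aux (z - a).im (z - a).re e (by rw [hn] at h; linarith)
  refine ⟨_, _, _, _, ?_, h2, ?_, h4, ?_⟩
  · simpa only [hx] using h1
  · simpa only [hy] using h3
  · rw [hn] at h ⊢
    have e1 : (z - a).im ^ 2 + (z - a).re ^ 2 + e = (z - a).re ^ 2 + (z - a).im ^ 2 + e := by ring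
    rw [e1]
    have h' := h.ne'
    field_simp
    ring

end TATE.FP
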