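import Mathlib

/-! # TATE/FP: the Schwarz lemma for holomorphic families of complex structures

`τ w : V ≃ V` real linear, holomorphic in `w ∈ ball w₀ R`, `τ w₀ = id`; `E w` Riemann forms with
`E w (τ w u) (τ w v) = E w₀ u v`. Then `E w (i τ w x) (τ w x) ≤ 16/4 E w₀ (i x) x` for `|w - w₀| ≤ R / 2`. -/

set_option autoImplicit false

open Filter Topology Metric Set

noncomputable section

namespace TATE.FP

variable {V : Type*} [NormedAddCommGroup V] [NormedSpace ℂ V]

/-- the complex linear part of a real linear map -/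
def linP (f : V →ₗ[ℝ] V) : V →ₗ[ℂ] V where
  toFun x := (1 / 2 : ℝ) • (f x - Complex.I • f (Complex.I • x))
  map_add' x y := by
    simp only [map_add, smul_add]
    module
  map_smul' c x := by
    have h1 : ∀ (a : ℝ) (y : V), f (a • y) = a • f y := fun a y => f.map_smul a y
    have h2 : ∀ y : V, c • y = c.re • y + c.im • (Complex.I • y) := by
      intro y
      rw [← Complex.coe_smul c.re, ← Complex.coe_smul c.im, smul_smul, ← add_smul,
        Complex.re_add_im]
    have h3 : Complex.I • c • x = c.re • (Complex.I • x) - c.im • x := by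
      rw [h2 x, smul_add, smul_comm Complex.I c.re, smul_comm Complex.I c.im, smul_smul,
        Complex.I_mul_I, neg_one_smul, smul_neg]
      abel
    rw [h3, h2 x, map_add, map_sub, h1, h1, h1, h1, RingHom.id_apply, h2]
    have h4 : ∀ (a : ℝ) (y : V), Complex.I • (a • y) = a • (Complex.I • y) := fun a y =>
      smul_comm _ _ _
    have h5 : ∀ y : V, Complex.I • Complex.I • y = -y := by
      intro y
      rw [smul_smul, Complex.I_mul_I, neg_one_smul]
    simp only [smul_sub, smul_add, h4, h5]
    module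

/-- the complex antilinear part -/
def linQ (f : V →ₗ[ℝ] V) (x : V) : V := (1 / 2 : ℝ) • (f x + Complex.I • f (Complex.I • x))

theorem linP_apply (f : V →ₗ[ℝ] V) (x : V) :
    linP f x = (1 / 2 : ℝ) • (f x - Complex.I • f (Complex.I • x)) := rfl

/-- the form `E (i a) b + i E a b` -/
def hrm (E : V →ₗ[ℝ] V →ₗ[ℝ] ℝ) (a b : V) : ℂ := (E (Complex.I • a) b : ℂ) + Complex.I * (E a b : ℂ)

structure IsRF (E : V →ₗ[ℝ] V →ₗ[ℝ] ℝ) : Prop where
  alt : ∀ u v, E u v = -E v u
  cpx : ∀ u v, E (Complex.I • u) (Complex.I • v) = E u v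
  pos : ∀ v, v ≠ 0 → 0 < E (Complex.I • v) v

theorem I_smul_I (x : V) : Complex.I • Complex.I • x = -x := by
  rw [smul_smul, Complex.I_mul_I, neg_one_smul]

theorem IsRF.symm {E : V →ₗ[ℝ] V →ₗ[ℝ] ℝ} (h : IsRF E) (u v : V) :
    E (Complex.I • u) v = E (Complex.I • v) u := by
  have := h.cpx u (Complex.I • v)
  rw [I_smul_I, map_neg] at this
  rw [h.alt (Complex.I • v) u]
  linarith

theorem IsRF.nonneg {E : V →ₗ[ℝ] V →ₗ[ℝ] ℝ} (h : IsRF E) (v : V) : 0 ≤ E (Complex.I • v) v := by
  by_cases hv : v = 0
  · simp [hv]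
  · exact (h.pos v hv).le

/-- `hrm` as a complex linear function of the first argument -/
def hrmL (E : V →ₗ[ℝ] V →ₗ[ℝ] ℝ) (b : V) : V →ₗ[ℂ] ℂ where
  toFun a := hrm E a b
  map_add' x y := by
    simp only [hrm, smul_add, map_add, LinearMap.add_apply, Complex.ofReal_add]
    ring
  map_smul' c x := by
    have h2 : ∀ y : V, c • y = c.re • y + c.im • (Complex.I • y) := by
      intro y
      rw [← Complex.coe_smul c.re, ← Complex.coe_smul c.im, smul_smul, ← add_smul,
        Complex.re_add_im]
    have h3 : Complex.I • c • x = c.re • (Complex.I • x) - c.im • x := by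
      rw [h2 x, smul_add, smul_comm Complex.I c.re, smul_comm Complex.I c.im, I_smul_I, smul_neg]
      abel
    change ((E (Complex.I • c • x) b : ℝ) : ℂ) + Complex.I * ((E (c • x) b : ℝ) : ℂ) = _
    rw [h3, h2 x]
    simp only [hrm, map_add, map_sub, map_smul, LinearMap.add_apply,
      LinearMap.sub_apply, LinearMap.smul_apply, smul_eq_mul, RingHom.id_apply]
    push_cast
    have e : c = c.re + c.im * Complex.I := (Complex.re_add_im c).symm
    conv_rhs => rw [e]
    have hI : Complex.I * Complex.I = -1 := Complex.I_mul_I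
    linear_combination (-(c.im : ℂ) * (E x b : ℂ)) * hI

/-- Cauchy–Schwarz -/
theorem IsRF.cs {E : V →ₗ[ℝ] V →ₗ[ℝ] ℝ} (h : IsRF E) (a b : V) :
    ‖hrm E a b‖ ^ 2 ≤ E (Complex.I • a) a * E (Complex.I • b) b := by
  -- real Cauchy–Schwarz
  have h1 : ∀ a b : V, E (Complex.I • a) b ^ 2 ≤ E (Complex.I • a) a * E (Complex.I • b) b := by
    intro a b
    set B : LinearMap.BilinForm ℝ V := LinearMap.mk₂ ℝ (fun a b => E (Complex.I • a) b)
      (by intro a a' b; simp [smul_add]) (by
        intro c a b
        rw [smul_comm Complex.I c a]; simp)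
      (by intro a b b'; simp) (by intro c a b; simp) with hB
    have h2 := LinearMap.BilinForm.apply_mul_apply_le_of_forall_zero_le B
      (fun x => h.nonneg x) a b
    have h3 : B a b = E (Complex.I • a) b := rfl
    have h4 : B b a = E (Complex.I • a) b := h.symm b a
    have h5 : B a a = E (Complex.I • a) a := rfl
    have h6 : B b b = E (Complex.I • b) b := rfl
    rw [h3, h4, h5, h6] at h2
    nlinarith [h2]
  -- phase
  by_cases h0 : hrm E a b = 0
  · rw [h0, norm_zero]
    have := mul_nonneg (h.nonneg a) (h.nonneg b)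
    simpa using this
  set θ : ℂ := (starRingEnd ℂ) (hrm E a b) / ‖hrm E a b‖ with hθ
  have hn : (‖hrm E a b‖ : ℂ) ≠ 0 := by
    simpa using h0
  have hθ1 : θ * hrm E a b = ‖hrm E a b‖ := by
    rw [hθ, div_mul_eq_mul_div, mul_comm, Complex.mul_conj, Complex.normSq_eq_norm_sq]
    field_simp
    push_cast
    ring
  have hθ2 : Complex.normSq θ = 1 := by
    rw [hθ, map_div₀, Complex.normSq_conj, Complex.normSq_eq_norm_sq, Complex.normSq_ofReal]
    have : ‖hrm E a b‖ ≠ 0 := by simpa using h0
    field_simp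
  have h7 : hrm E (θ • a) b = θ * hrm E a b := (hrmL E b).map_smul θ a
  have h8 : E (Complex.I • θ • a) b = ‖hrm E a b‖ := by
    have := congrArg Complex.re (h7.trans hθ1)
    simpa [hrm] using this
  have h9 : E (Complex.I • θ • a) (θ • a) = E (Complex.I • a) a := by
    have h10 : ∀ y : V, θ • y = θ.re • y + θ.im • (Complex.I • y) := by
      intro y
      rw [← Complex.coe_smul θ.re, ← Complex.coe_smul θ.im, smul_smul, ← add_smul,
        Complex.re_add_im]
    have h11 : Complex.I • θ • a = θ.re • (Complex.I • a) - θ.im • a := by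
      rw [h10 a, smul_add, smul_comm Complex.I θ.re, smul_comm Complex.I θ.im, I_smul_I, smul_neg]
      abel
    have h12 : E a a = 0 := by have := h.alt a a; linarith
    have h13 : E (Complex.I • a) (Complex.I • a) = 0 := by rw [h.cpx, h12]
    have h14 : E a (Complex.I • a) = -E (Complex.I • a) a := h.alt _ _
    rw [h11, h10 a]
    simp only [map_add, map_sub, map_smul, LinearMap.sub_apply, LinearMap.smul_apply,
      smul_eq_mul, h12, h13, h14]
    rw [Complex.normSq_apply] at hθ2
    linear_combination (E (Complex.I • a) a) * hθ2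
  have := h1 (θ • a) b
  rw [h8, h9] at this
  exact this

end TATE.FP
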