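import Pool.Agent.Lib.TATE.FP.Sch

/-! # TATE/FP: the Schwarz lemma for holomorphic families of complex structures, part 2 -/

set_option autoImplicit false

open Filter Topology Metric Set
open scoped Ring

noncomputable section

namespace TATE.FP

variable {V : Type*} [NormedAddCommGroup V] [NormedSpace ℂ V]

/-- the transported complex structure -/
def jj (f : V ≃ₗ[ℝ] V) (x : V) : V := f.symm (Complex.I • f x)

theorem f_jj (f : V ≃ₗ[ℝ] V) (x : V) : f (jj f x) = Complex.I • f x := by simp [jj]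

theorem jj_add (f : V ≃ₗ[ℝ] V) (x y : V) : jj f (x + y) = jj f x + jj f y := by
  simp [jj, smul_add]

theorem jj_smul (f : V ≃ₗ[ℝ] V) (c : ℝ) (x : V) : jj f (c • x) = c • jj f x := by
  simp only [jj, map_smul]
  rw [smul_comm, map_smul]

theorem linP_linQ (f : V ≃ₗ[ℝ] V) (x : V) :
    linP (f : V →ₗ[ℝ] V) (x + Complex.I • jj f x) =
      -linQ (f : V →ₗ[ℝ] V) (x - Complex.I • jj f x) := by
  simp only [linP_apply, linQ, LinearEquiv.coe_coe, smul_add, smul_sub, map_add, map_sub,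
    I_smul_I, map_neg, f_jj, smul_neg]
  abel

theorem norm_pq {E₀ : V →ₗ[ℝ] V →ₗ[ℝ] ℝ} (h : IsRF E₀) (x y : V) :
    E₀ (Complex.I • (x - Complex.I • y)) (x - Complex.I • y) -
      E₀ (Complex.I • (x + Complex.I • y)) (x + Complex.I • y) = 4 * E₀ y x := by
  have h1 : E₀ (Complex.I • x) (Complex.I • y) = E₀ x y := h.cpx x y
  have h2 := h.alt x y
  have h3 := h.alt y (Complex.I • y)
  simp only [smul_add, smul_sub, map_add, map_sub, I_smul_I, map_neg, LinearMap.add_apply,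
    LinearMap.sub_apply, LinearMap.neg_apply]
  rw [h1, h2]
  ring

/-- injectivity of the linear part -/
theorem linP_inj {E₀ E₁ : V →ₗ[ℝ] V →ₗ[ℝ] ℝ} (h : IsRF E₀) (h' : IsRF E₁) (f : V ≃ₗ[ℝ] V)
    (iso : ∀ u v, E₁ (f u) (f v) = E₀ u v) : Function.Injective (linP (f : V →ₗ[ℝ] V)) := by
  rw [injective_iff_map_eq_zero]
  intro y hy
  by_contra hne
  rw [linP_apply] at hy
  have h1 : f y = Complex.I • f (Complex.I • y) := by
    have h2 : (2 : ℝ) • ((1 / 2 : ℝ) • (f y - Complex.I • f (Complex.I • y))) = (2 : ℝ) • (0 : V) :=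
      congrArg _ hy
    rw [smul_smul, smul_zero] at h2
    norm_num at h2
    exact sub_eq_zero.mp h2
  have h3 : f (Complex.I • y) = -(Complex.I • f y) := by
    rw [h1, I_smul_I, neg_neg]
  have h4 := iso (Complex.I • y) y
  rw [h3, map_neg, LinearMap.neg_apply] at h4
  have h5 := h.pos y hne
  have h6 := h'.nonneg (f y)
  linarith

/-- injectivity of `x ↦ x - i J x` -/
theorem q_inj {E₀ E₁ : V →ₗ[ℝ] V →ₗ[ℝ] ℝ} (h : IsRF E₀) (h' : IsRF E₁) (f : V ≃ₗ[ℝ] V)
    (iso : ∀ u v, E₁ (f u) (f v) = E₀ u v) (x : V) (hx : x - Complex.I • jj f x = 0) : x = 0 := by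
  by_contra hne
  have h1 := norm_pq h x (jj f x)
  rw [hx] at h1
  have h2 := iso (jj f x) x
  rw [f_jj] at h2
  have h3 := h'.pos (f x) (by simpa using hne)
  have h4 := h.nonneg (x + Complex.I • jj f x)
  simp only [smul_zero, map_zero] at h1
  linarith

/-- surjectivity of `x ↦ x - i J x` -/
theorem q_surj [FiniteDimensional ℂ V] {E₀ E₁ : V →ₗ[ℝ] V →ₗ[ℝ] ℝ} (h : IsRF E₀) (h' : IsRF E₁)
    (f : V ≃ₗ[ℝ] V) (iso : ∀ u v, E₁ (f u) (f v) = E₀ u v) (q : V) :
    ∃ x : V, q = x - Complex.I • jj f x := by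
  have : FiniteDimensional ℝ V := FiniteDimensional.complexToReal V
  set T : V →ₗ[ℝ] V :=
    { toFun := fun x => x - Complex.I • jj f x
      map_add' := by
        intro x y
        rw [jj_add, smul_add]; abel
      map_smul' := by
        intro c x
        rw [jj_smul, RingHom.id_apply, smul_sub, smul_comm Complex.I c] } with hT
  have hi : Function.Injective T := by
    rw [injective_iff_map_eq_zero]
    intro x hx
    exact q_inj h h' f iso x hx
  obtain ⟨x, hx⟩ := (LinearMap.injective_iff_surjective.mp hi) q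
  exact ⟨x, hx.symm⟩

/-- the contraction -/
theorem contr [FiniteDimensional ℂ V] {E₀ E₁ : V →ₗ[ℝ] V →ₗ[ℝ] ℝ} (h : IsRF E₀) (h' : IsRF E₁)
    (f : V ≃ₗ[ℝ] V) (iso : ∀ u v, E₁ (f u) (f v) = E₀ u v) (p q : V)
    (hpq : linP (f : V →ₗ[ℝ] V) p = -linQ (f : V →ₗ[ℝ] V) q) :
    E₀ (Complex.I • p) p ≤ E₀ (Complex.I • q) q := by
  obtain ⟨x, rfl⟩ := q_surj h h' f iso q
  have h1 : p = x + Complex.I • jj f x := by
    apply linP_inj h h' f iso
    rw [hpq, linP_linQ]
  rw [h1]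
  have h2 := norm_pq h x (jj f x)
  have h3 := iso (jj f x) x
  rw [f_jj] at h3
  have h4 := h'.nonneg (f x)
  linarith

/-- **the comparison** -/
theorem compar [FiniteDimensional ℂ V] {w₀ : ℂ} {R : ℝ} (hR : 0 < R) (τ : ℂ → (V ≃ₗ[ℝ] V))
    (E : ℂ → (V →ₗ[ℝ] V →ₗ[ℝ] ℝ)) (h1 : ∀ v, τ w₀ v = v)
    (hol : ∀ v, DifferentiableOn ℂ (fun w => τ w v) (ball w₀ R))
    (hE : ∀ w ∈ ball w₀ R, IsRF (E w))
    (iso : ∀ w ∈ ball w₀ R, ∀ u v, E w (τ w u) (τ w v) = E w₀ u v)
    {w : ℂ} (hw : dist w w₀ ≤ R / 2) (x : V) :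
    E w (Complex.I • τ w x) (τ w x) ≤ 4 * E w₀ (Complex.I • x) x := by
  have hw0 : w₀ ∈ ball w₀ R := mem_ball_self hR
  have hwb : w ∈ ball w₀ R := by rw [mem_ball]; linarith
  have hE0 := hE w₀ hw0
  have hEw := hE w hwb
  set P : ℂ → (V →L[ℂ] V) := fun w => (linP (τ w : V →ₗ[ℝ] V)).toContinuousLinearMap with hP
  have hPb : ∀ w ∈ ball w₀ R, IsUnit (P w) := by
    intro w hw
    rw [ContinuousLinearMap.isUnit_iff_bijective]
    have hi : Function.Injective (linP (τ w : V →ₗ[ℝ] V)) :=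
      linP_inj hE0 (hE w hw) (τ w) (iso w hw)
    exact ⟨hi, LinearMap.injective_iff_surjective.mp hi⟩
  have hPd : DifferentiableOn ℂ P (ball w₀ R) := by
    have h2 : ContDiffOn ℂ 1 P (ball w₀ R) := by
      rw [contDiffOn_clm_apply]
      intro y
      refine DifferentiableOn.contDiffOn ?_ isOpen_ball
      have h3 : DifferentiableOn ℂ (fun w => (1 / 2 : ℝ) • (τ w y - Complex.I • τ w (Complex.I • y)))
          (ball w₀ R) := ((hol y).sub ((hol _).const_smul Complex.I)).const_smul (1 / 2 : ℝ)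
      exact h3
    exact h2.differentiableOn one_ne_zero
  set p := x + Complex.I • jj (τ w) x with hp
  set q := x - Complex.I • jj (τ w) x with hq
  have hQd : DifferentiableOn ℂ (fun w => linQ (τ w : V →ₗ[ℝ] V) q) (ball w₀ R) :=
    ((hol q).add ((hol _).const_smul Complex.I)).const_smul (1 / 2 : ℝ)
  set Z : ℂ → V := fun w => -((P w)⁻¹ʳ (linQ (τ w : V →ₗ[ℝ] V) q)) with hZ
  have hZd : DifferentiableOn ℂ Z (ball w₀ R) := by
    intro w hw
    have h2 : DifferentiableAt ℂ P w := hPd.differentiableAt (isOpen_ball.mem_nhds hw)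
    have h3 : DifferentiableAt ℂ (fun w => linQ (τ w : V →ₗ[ℝ] V) q) w :=
      hQd.differentiableAt (isOpen_ball.mem_nhds hw)
    exact ((h2.inverse (hPb w hw)).clm_apply h3).neg.differentiableWithinAt
  have hPZ : ∀ w ∈ ball w₀ R, linP (τ w : V →ₗ[ℝ] V) (Z w) = -linQ (τ w : V →ₗ[ℝ] V) q := by
    intro w hw
    have h2 : P w ((P w)⁻¹ʳ (linQ (τ w : V →ₗ[ℝ] V) q)) = linQ (τ w : V →ₗ[ℝ] V) q := by
      have := Ring.mul_inverse_cancel (P w) (hPb w hw)
      have h3 := congrArg (fun g : V →L[ℂ] V => g (linQ (τ w : V →ₗ[ℝ] V) q)) this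
      simpa using h3
    have h3 : P w (Z w) = -linQ (τ w : V →ₗ[ℝ] V) q := by
      rw [hZ]
      simp only [map_neg, h2]
    exact h3
  have hZle : ∀ w ∈ ball w₀ R, E w₀ (Complex.I • Z w) (Z w) ≤ E w₀ (Complex.I • q) q :=
    fun w hw => contr hE0 (hE w hw) (τ w) (iso w hw) _ _ (hPZ w hw)
  have hZw : Z w = p := by
    apply linP_inj hE0 hEw (τ w) (iso w hwb)
    rw [hPZ w hwb, hp, linP_linQ]
  have hZ0 : Z w₀ = 0 := by
    apply linP_inj hE0 hE0 (τ w₀) (iso w₀ hw0)
    rw [hPZ w₀ hw0, map_zero]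
    simp only [linQ, LinearEquiv.coe_coe, h1, I_smul_I]
    simp
  -- the scalar function
  set F : ℂ → ℂ := fun w => hrm (E w₀) (Z w) p with hF
  have hFd : DifferentiableOn ℂ F (ball w₀ R) := by
    have h2 : Differentiable ℂ (hrmL (E w₀) p) :=
      (hrmL (E w₀) p).toContinuousLinearMap.differentiable
    exact h2.comp_differentiableOn hZd
  set A := E w₀ (Complex.I • q) q with hA
  set B := E w₀ (Complex.I • p) p with hB
  have hA0 : 0 ≤ A := hE0.nonneg q
  have hB0 : 0 ≤ B := hE0.nonneg p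
  have hF0 : F w₀ = 0 := by
    rw [hF]
    simp only [hZ0]
    exact (hrmL (E w₀) p).map_zero
  have hmaps : MapsTo F (ball w₀ R) (closedBall (F w₀) (Real.sqrt (A * B))) := by
    intro w hw
    rw [hF0, mem_closedBall, dist_zero_right]
    apply Real.le_sqrt_of_sq_le
    refine (hE0.cs (Z w) p).trans ?_
    exact mul_le_mul_of_nonneg_right (hZle w hw) hB0
  have hS := Complex.dist_le_div_mul_dist_of_mapsTo_ball hFd hmaps hwb
  rw [hF0, dist_zero_right] at hS
  have hFw : ‖F w‖ = B := by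
    have h12 : E w₀ p p = 0 := by have := hE0.alt p p; linarith
    rw [hF]
    simp only [hZw, hrm, h12]
    simp only [Complex.ofReal_zero, mul_zero, add_zero, Complex.norm_real, Real.norm_eq_abs]
    exact abs_of_nonneg hB0
  rw [hFw] at hS
  have hS2 : B ≤ Real.sqrt (A * B) / 2 := by
    refine hS.trans ?_
    have h2 : 0 ≤ Real.sqrt (A * B) := Real.sqrt_nonneg _
    calc Real.sqrt (A * B) / R * dist w w₀ ≤ Real.sqrt (A * B) / R * (R / 2) :=
          mul_le_mul_of_nonneg_left hw (by positivity)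
      _ = Real.sqrt (A * B) / 2 := by field_simp
  have hS3 : B ≤ A / 4 := by
    by_cases hB1 : B = 0
    · rw [hB1]; linarith
    have hB2 : 0 < B := lt_of_le_of_ne hB0 (Ne.symm hB1)
    have h2 : (2 * B) ^ 2 ≤ A * B := by
      have h3 : 2 * B ≤ Real.sqrt (A * B) := by linarith
      calc (2 * B) ^ 2 ≤ Real.sqrt (A * B) ^ 2 := pow_le_pow_left₀ (by linarith) h3 2
        _ = A * B := Real.sq_sqrt (mul_nonneg hA0 hB0)
    have h4 : 4 * B * B ≤ A * B := by nlinarith
    have := le_of_mul_le_mul_right h4 hB2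
    linarith
  -- conclusion
  have h5 := norm_pq hE0 x (jj (τ w) x)
  have h6 := iso w hwb (jj (τ w) x) x
  rw [f_jj] at h6
  have h7 : A ≤ 16 * E w₀ (Complex.I • x) x := by
    -- `|q|² ≤ 2 |2 x|² + 2 |p|²`
    have h8 : q = (2 : ℝ) • x - p := by
      rw [hp, hq]; module
    have h9 := hE0.nonneg ((2 : ℝ) • x + p)
    have h10 : A + E w₀ (Complex.I • ((2 : ℝ) • x + p)) ((2 : ℝ) • x + p) =
        8 * E w₀ (Complex.I • x) x + 2 * B := by
      rw [hA, h8]
      simp only [smul_add, smul_sub, map_add, map_sub, LinearMap.add_apply, LinearMap.sub_apply,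
        smul_comm Complex.I (2 : ℝ), map_smul, LinearMap.smul_apply, smul_eq_mul]
      ring
    linarith
  linarith

end TATE.FP
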