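import Pool.Agent.Lib.MP_640417_ag.TATE.FP.Ad
import Pool.Agent.Lib.MP_640417_ag.TATE.FP.Base
import Pool.Agent.Lib.MP_640417_ag.TATE.FP.C20
import Pool.Agent.Lib.MP_640417_ag.TATE.FP.Ca
import Pool.Agent.Lib.MP_640417_ag.TATE.FP.Co
import Pool.Agent.Lib.MP_640417_ag.TATE.FP.Disc0
import Pool.Agent.Lib.MP_640417_ag.TATE.FP.Dk
import Pool.Agent.Lib.MP_640417_ag.TATE.FP.Dm
import Pool.Agent.Lib.MP_640417_ag.TATE.FP.Ext
import Pool.Agent.Lib.MP_640417_ag.TATE.FP.Fl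
import Pool.Agent.Lib.MP_640417_ag.TATE.FP.GQ
import Pool.Agent.Lib.MP_640417_ag.TATE.FP.Gb
import Pool.Agent.Lib.MP_640417_ag.TATE.FP.Gr
import Pool.Agent.Lib.MP_640417_ag.TATE.FP.Hn
import Pool.Agent.Lib.MP_640417_ag.TATE.FP.Hx
import Pool.Agent.Lib.MP_640417_ag.TATE.FP.Kb0
import Pool.Agent.Lib.MP_640417_ag.TATE.FP.Kr
import Pool.Agent.Lib.MP_640417_ag.TATE.FP.Lap
import Pool.Agent.Lib.MP_640417_ag.TATE.FP.Li2
import Pool.Agent.Lib.MP_640417_ag.TATE.FP.MJ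
import Pool.Agent.Lib.MP_640417_ag.TATE.FP.Main
import Pool.Agent.Lib.MP_640417_ag.TATE.FP.Pb
import Pool.Agent.Lib.MP_640417_ag.TATE.FP.Pi
import Pool.Agent.Lib.MP_640417_ag.TATE.FP.Pu
import Pool.Agent.Lib.MP_640417_ag.TATE.FP.Pw
import Pool.Agent.Lib.MP_640417_ag.TATE.FP.Reb0
import Pool.Agent.Lib.MP_640417_ag.TATE.FP.Sc0
import Pool.Agent.Lib.MP_640417_ag.TATE.FP.Uf
import Pool.Agent.Lib.MP_640417_ag.TATE.FP.Uni
import Pool.Agent.Lib.MP_640417_ag.TATE.FP.Uq0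
import Pool.Agent.Lib.MP_640417_ag.TATE.FP.Z

/-!
# PROJECT TATE, package FP: the theorem of the fixed part (assembly, helper83)
-/

set_option autoImplicit false

namespace Pool.Agent.A640.Tate

theorem pPw : StmtPw := stmtPw stmtKr stmtKb0
theorem pBase : StmtBase := stmtBase stmtMJ stmtGQ
theorem pUf : StmtUf := stmtUf (stmtHn stmtCo)
theorem pSc : StmtSc := stmtSc0 stmtZ stmtCa pBase
theorem pDisc : StmtDisc := stmtDisc0 (stmtUni stmtReb0) (stmtExt stmtUq0)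
theorem pGr : StmtGr := stmtGr pDisc pSc pBase pPw pUf (stmtGb stmtHx)
theorem pC2 : StmtC2 := stmtC20 pBase pPw pUf stmtHx (stmtLap stmtHx)

/-- THE THEOREM OF THE FIXED PART over `ℂ` minus a finite set. -/
theorem thmFP : ThmFP :=
  stmtMain pC2 (stmtPu stmtPb pGr pC2) (stmtPi stmtPb pGr pC2) stmtLi2
    (stmtFl pBase pPw (stmtLap stmtHx) pUf stmtDk stmtDm)

end Pool.Agent.A640.Tate

namespace TATE

/-- **FP**: the theorem of the fixed part in the form of the interface. -/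
theorem tFP : StmtFP := Pool.Agent.A640.Tate.tFP_of Pool.Agent.A640.Tate.thmFP

end TATE
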